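import Pool.Agent.MP_8fd8e7_al.Mg.Main

namespace Pool.Agent.Results.MP_8fd8e7_al.NotSpecht

open Pool.Agent.MP_8fd8e7_al

universe u

/-- There is a set of group identities containing `((x₁,x₂,x₃),(x₄,x₅,x₆)) = 1` whose variety is
not defined by any finite set of identities. -/
theorem result : ∃ S : Set (FreeGroup ℕ), w0 ∈ S ∧
    ¬ ∃ T : Finset (FreeGroup ℕ), ∀ (G : Type u) [Group G], Satisfies G S ↔ Satisfies G T :=
  main

end Pool.Agent.Results.MP_8fd8e7_al.NotSpecht
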